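import Pool.Agent.W_448nf_h84.NfA
import Pool.Agent.W_448e_h97.EM

/-!
MP_448cb3_co, G2, case B: the functional `F` of the natural parts of the window `j` is nonnegative
(helper84).
-/

namespace Pool.Agent.GaussPoset.EK

set_option linter.unusedSectionVars false

open Finset Win St Polynomial Wd Win.W4

universe u

variable {P : Type u} [Fintype P] [PartialOrder P] [DecidableEq P] {r i j : ℕ}

variable {K : Finset P} {psi : P → P}

/-- the matched near elements of a natural part -/
lemma NJ.nat_K (h : NJ P r j) (R : Red P j K psi) {t : Tops P} (hn : NatT j (t : P)) :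
    ∀ x ∈ cext (j + 1) (topOf : P → Tops P) t, x ∉ K := by
  intro x hx hxK
  have H := h.g.H
  have hD := R.sub hxK
  have hne := R.Df_ne hxK
  have hlx : lev x ≤ j + 1 := by
    rcases mem_union.1 hD with h1 | h1
    · exact (mem_dbL.1 h1).1.le
    · have := (mem_dbU.1 h1).1
      omega
  have hxt : x ≤ (t : P) := by
    have h1 := (mem_cext.1 hx) x le_rfl hlx
    rw [← h1]
    exact le_topOf x
  obtain ⟨u, v, huv, hns⟩ := card_eq_two.1 (ns_card hD)
  have key : ∀ w ∈ ns j x, lev w = j ∧ w ≤ (t : P) := by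
    intro w hw
    refine ⟨(kap_ns' H h.split hD hw).2, ?_⟩
    have h1 := (kap_ns' H h.split hD hw).1
    have h2 := (mem_cext.1 hx) x le_rfl hlx
    rw [h2] at h1
    rw [← h1]
    exact le_topOf w
  obtain ⟨hu1, hu2⟩ := key u (by rw [hns]; exact mem_insert_self _ _)
  obtain ⟨hv1, hv2⟩ := key v (by rw [hns]; exact mem_insert_of_mem (mem_singleton_self _))
  apply hne
  rw [hns, Df_pair H hu1 huv, hn u v hu1 hv1 hu2 hv2 huv]
  simp

/-- a natural part has all near doubles matched -/
theorem NJ.nat4 (h : NJ P r j) (hj : 2 ≤ j) (R : Red P j K psi) {t : Tops P}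
    (hn : NatT j (t : P)) : Nat4 r j K psi (cext (j + 1) (topOf : P → Tops P) t) where
  H := h.g.H
  hi := by omega
  hi2 := h.hr
  hM := R.mat
  hC := part_cext h.g.H le_rfl h.split t
  hK := NJ.nat_K h R hn
  nq := by
    intro w _ hlw x hx x' hx' h2 h2'
    rcases eq_or_ne x x' with rfl | hne
    · rw [inter_self]
      exact card_pos.1 (by omega)
    · obtain ⟨v, hv, hv'⟩ := NJ.noQ h hj w hlw x hx x' hx' hne h2 h2'
      exact ⟨v, mem_inter.2 ⟨hv, hv'⟩⟩
  nq' := by
    classical
    intro w _ hlw x hx x' hx' h2 h2'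
    rcases eq_or_ne x x' with rfl | hne
    · rw [inter_self]
      exact card_pos.1 (by omega)
    · by_contra h0
      rw [not_nonempty_iff_eq_empty, ← disjoint_iff_inter_eq_empty] at h0
      have h3 : dn j w ≤ 3 := by
        have h4 := dn_le_three h.g.H (k := lev w) (h.g.good (lev w + 1) (by omega)) rfl
        rwa [hlw] at h4
      have h4 : dc x ∪ dc x' ⊆ stD j w := by
        intro v hv
        rw [mem_stD_iff h.g.H hlw]
        rcases mem_union.1 hv with hv | hv
        · exact ⟨x, hx, hv⟩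
        · exact ⟨x', hx', hv⟩
      have h5 := card_le_card h4
      rw [card_union_of_disjoint h0, card_stD] at h5
      omega

/-- at most one upper pendant per part -/
theorem NJ.UC_le (h : NJ P r j) (hj : 2 ≤ j) (t : Tops P) :
    (UC j (cext (j + 1) (topOf : P → Tops P) t)).card ≤ 1 := by
  classical
  obtain ⟨lo, hi, e, C⟩ := Cp.comp_exists h.g.H t.2 h.g.hr h.g.good
  obtain ⟨n, rfl⟩ : ∃ n, j = n + 2 := ⟨j - 2, by omega⟩
  have h1 : npd lo hi n ≤ 1 := (law_two h.g t.2 C (i := n) le_rfl).2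
  have h2 : npu lo hi (n + 2) ≤ 1 := by
    unfold npu
    unfold npd at h1
    split_ifs with h3 h4 h4
    · exfalso
      obtain ⟨-, a1, a2, a3⟩ := h3
      obtain ⟨-, b1, b2, b3⟩ := h4
      have e1 := C.lo_le (n + 1) (by omega)
      have e2 : n + 2 - 1 = n + 1 := by omega
      have e3 : n + 2 - 2 = n := by omega
      rw [e2, e3] at a1 b1
      rw [e2] at a2 b2
      rw [if_pos (show Wd.pdL lo hi n from ⟨a1, a2, by omega⟩),
        if_pos (show Wd.pdR lo hi n from ⟨b1, b2, by omega⟩)] at h1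
      omega
    all_goals omega
  rw [npu_eq, ← C.card_PU h.g.H le_rfl] at h2
  refine (card_le_card ?_).trans h2
  intro p hp
  obtain ⟨h3, h4⟩ := mem_UC.1 hp
  rw [mem_filter]
  refine ⟨h4, ?_⟩
  have h5 := lev_PU h4
  have h6 := (mem_cext.1 h3) p le_rfl (by omega)
  rw [← h6]
  exact le_topOf p

lemma NJ.st_pos (h : NJ P r j) (t : Tops P) :
    1 ≤ (st j (cext (j + 1) (topOf : P → Tops P) t)).card := by
  obtain ⟨lo, hi, e, C⟩ := Cp.comp_exists h.g.H t.2 h.g.hr h.g.good
  rw [h.cext_eq (i := j) (by omega) t, h.card_SS le_rfl C]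
  have := C.lo_le j le_rfl
  omega

/-- the functional `F` of a part -/
noncomputable def Fn (i : ℕ) (C : Finset P) : ℤ :=
  I2.al 2 (st i C).card (ZS i C) + (I2.al 2 (st i C).card (ZS i C) ^ 2 -
    2 * I2.be 4 (st i C).card (ZS i C))

/-- `F ≥ 0` for the natural parts -/
theorem NJ.nat_F (h : NJ P r j) (hj : 2 ≤ j) {t : Tops P} (hn : NatT j (t : P)) :
    0 ≤ Fn j (cext (j + 1) (topOf : P → Tops P) t) := by
  obtain ⟨K, psi, R⟩ := exists_red P j
  exact (NJ.nat4 h hj R hn).F_nonneg (NJ.st_pos h t) (NJ.UC_le h hj t)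

/-- the natural parts with `F = 0`: no element over three sites with a single cover, every lower pendant
meets the upper one, the lower pendants are disjoint -/
theorem NJ.nat_F_zero (h : NJ P r j) (hj : 2 ≤ j) {t : Tops P} (hn : NatT j (t : P))
    (hF : Fn j (cext (j + 1) (topOf : P → Tops P) t) = 0) :
    T4 j (cext (j + 1) (topOf : P → Tops P) t) = Z4 j (cext (j + 1) (topOf : P → Tops P) t) ∧
    DU j (cext (j + 1) (topOf : P → Tops P) t) = DC j (cext (j + 1) (topOf : P → Tops P) t) ∧
    D2 j (cext (j + 1) (topOf : P → Tops P) t) = ∅ := by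
  obtain ⟨K, psi, R⟩ := exists_red P j
  exact (NJ.nat4 h hj R hn).F_zero (NJ.st_pos h t) (NJ.UC_le h hj t) hF

end Pool.Agent.GaussPoset.EK
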