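import Pool.Agent.W_448w4_h10.KH

/-!
MP_448cb3_co, G2, case B, window `j`: the functional `F = w21 + p_2[4]` of a natural part is nonnegative
if the part has at most one upper pendant, with the cases of equality.
-/

namespace Pool.Agent.GaussPoset.Win.W4

set_option linter.unusedSectionVars false

open Finset
open Pool.Agent.GaussPoset.Win.SO (PN vp mem_PN num_PN vp_PD vp_PU)

universe u

variable {P : Type u} [Fintype P] [PartialOrder P] [DecidableEq P] {r i : ℕ}
variable {psi : P → P} {C K : Finset P}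

open Classical in
/-- the lower pendants of a part -/
noncomputable def DC (i : ℕ) (C : Finset P) : Finset P := C.filter (fun p => p ∈ PD P i)

open Classical in
/-- the upper pendants of a part -/
noncomputable def UC (i : ℕ) (C : Finset P) : Finset P := C.filter (fun p => p ∈ PU P i)

open Classical in
/-- the lower pendants which meet an upper pendant -/
noncomputable def DU (i : ℕ) (C : Finset P) : Finset P :=
  (DC i C).filter (fun p => ∃ u ∈ UC i C, ¬ Disjoint (sit i p) (sit i u))

open Classical in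
/-- ordered pairs of different lower pendants with a common site -/
noncomputable def D2 (i : ℕ) (C : Finset P) : Finset (P × P) :=
  (DC i C ×ˢ DC i C).filter (fun q => q.1 ≠ q.2 ∧ ¬ Disjoint (sit i q.1) (sit i q.2))

lemma mem_DC {p : P} : p ∈ DC i C ↔ p ∈ C ∧ p ∈ PD P i := by
  classical
  unfold DC
  rw [mem_filter]

lemma mem_UC {p : P} : p ∈ UC i C ↔ p ∈ C ∧ p ∈ PU P i := by
  classical
  unfold UC
  rw [mem_filter]

lemma DU_sub (i : ℕ) (C : Finset P) : DU i C ⊆ DC i C := by
  classical
  exact filter_subset _ _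

lemma DC_UC (i : ℕ) (C : Finset P) : Disjoint (DC i C) (UC i C) := by
  rw [disjoint_left]
  intro p h1 h2
  have h3 := lev_PD (mem_DC.1 h1).2
  have h4 := lev_PU (mem_UC.1 h2).2
  omega

lemma PN_eq (i : ℕ) (C : Finset P) : PN i C = DC i C ∪ UC i C := by
  ext p
  rw [mem_PN, mem_union, mem_DC, mem_UC]
  tauto

/-- the sites of a lower pendant -/
lemma sit_PD_ne (H : Gr P r) {p : P} (h : p ∈ PD P i) : (sit i p).Nonempty := by
  classical
  obtain ⟨h1, h2, w, hw, hw2⟩ := mem_PD.1 h
  obtain ⟨v, hv⟩ : (uc w).Nonempty := card_pos.1 (by omega)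
  refine ⟨v, ?_⟩
  rw [sit_low H (by omega), mem_sts_iff H h1]
  exact ⟨w, mem_uc.2 hw, hv⟩

lemma sit_PU_ne (H : Gr P r) {p : P} (h : p ∈ PU P i) : (sit i p).Nonempty := by
  classical
  obtain ⟨h1, h2, w, hw, hw2⟩ := mem_PU.1 h
  obtain ⟨v, hv⟩ : (dc w).Nonempty := card_pos.1 (by omega)
  refine ⟨v, ?_⟩
  rw [sit_upp H (by omega), mem_stD_iff H h1]
  exact ⟨w, mem_dc.2 hw, hv⟩

lemma not_disj_self {α : Type*} {s : Finset α} (h : s.Nonempty) : ¬ Disjoint s s := by
  intro h1
  rw [disjoint_self] at h1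
  exact h.ne_empty h1

/-- the linear part -/
lemma sum_vp (i : ℕ) (C : Finset P) :
    ∑ p ∈ PN i C, vp i p = ((DC i C).card : ℤ) - (UC i C).card := by
  rw [PN_eq, sum_union (DC_UC i C), sum_congr rfl fun p hp => vp_PD (mem_DC.1 hp).2,
    sum_congr (g := fun _ => (-1 : ℤ)) (s₁ := UC i C) rfl fun p hp => vp_PU (mem_UC.1 hp).2]
  simp
  ring

/-- the quadratic part -/
lemma sum_M4 (i : ℕ) (C : Finset P) :
    ∑ q ∈ M4 i C, vp i q.1 * vp i q.2 = ∑ p ∈ PN i C, ∑ q ∈ PN i C,
      if ¬ Disjoint (sit i p) (sit i q) then vp i p * vp i q else 0 := by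
  classical
  unfold M4
  rw [sum_filter, sum_product]

lemma sum_DD (H : Gr P r) (i : ℕ) (C : Finset P) :
    ∑ p ∈ DC i C, ∑ q ∈ DC i C, (if ¬ Disjoint (sit i p) (sit i q) then vp i p * vp i q else 0) =
      ((DC i C).card : ℤ) + (D2 i C).card := by
  classical
  have h1 : ∀ p ∈ DC i C, ∀ q ∈ DC i C,
      (if ¬ Disjoint (sit i p) (sit i q) then vp i p * vp i q else 0) =
        (if p = q then 1 else 0) +
          (if p ≠ q ∧ ¬ Disjoint (sit i p) (sit i q) then (1 : ℤ) else 0) := by
    intro p hp q hq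
    rw [vp_PD (mem_DC.1 hp).2, vp_PD (mem_DC.1 hq).2]
    by_cases h : p = q
    · subst h
      rw [if_pos (not_disj_self (sit_PD_ne H (mem_DC.1 hp).2)), if_pos rfl, if_neg (by tauto)]
      norm_num
    · by_cases h2 : Disjoint (sit i p) (sit i q)
      · rw [if_neg (by tauto), if_neg h, if_neg (by tauto)]
        norm_num
      · rw [if_pos h2, if_neg h, if_pos ⟨h, h2⟩]
        norm_num
  rw [sum_congr rfl fun p hp => sum_congr rfl (h1 p hp)]
  simp only [sum_add_distrib]
  congr 1
  · rw [sum_congr rfl (g := fun _ => (1 : ℤ))]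
    · simp
    · intro p hp
      rw [sum_ite_eq, if_pos hp]
  · unfold D2
    rw [card_filter, sum_product]
    push_cast
    rfl

/-- THE FORM of the pendants, at most one upper pendant -/
theorem num_form (H : Gr P r) (hU : (UC i C).card ≤ 1) :
    ∑ p ∈ PN i C, vp i p + ∑ q ∈ M4 i C, vp i q.1 * vp i q.2 =
      2 * (((DC i C).card : ℤ) - (DU i C).card) + (D2 i C).card := by
  classical
  rw [sum_vp, sum_M4, PN_eq, sum_union (DC_UC i C),
    sum_congr rfl fun p _ => sum_union (DC_UC i C), sum_add_distrib, sum_DD H]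
  rcases Nat.eq_zero_or_pos (UC i C).card with h0 | h0
  · have h1 := card_eq_zero.1 h0
    have h2 : DU i C = ∅ := by
      unfold DU
      rw [h1]
      simp
    rw [h1, h2]
    simp
    ring
  · obtain ⟨u, hu⟩ := card_eq_one.1 (show (UC i C).card = 1 by omega)
    have huU : u ∈ PU P i := (mem_UC.1 (show u ∈ UC i C by rw [hu]; exact mem_singleton_self u)).2
    have h2 : DU i C = (DC i C).filter (fun p => ¬ Disjoint (sit i p) (sit i u)) := by
      unfold DU
      rw [hu]
      simp
    have h3 : ∑ p ∈ DC i C, ∑ q ∈ UC i C,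
        (if ¬ Disjoint (sit i p) (sit i q) then vp i p * vp i q else 0) = - ((DU i C).card : ℤ) := by
      rw [h2, card_filter, hu]
      push_cast
      rw [← sum_neg_distrib]
      refine sum_congr rfl fun p hp => ?_
      rw [sum_singleton, vp_PD (mem_DC.1 hp).2, vp_PU huU]
      split_ifs <;> norm_num
    have h4 : ∑ p ∈ UC i C, ∑ q ∈ DC i C ∪ UC i C,
        (if ¬ Disjoint (sit i p) (sit i q) then vp i p * vp i q else 0) =
        - ((DU i C).card : ℤ) + 1 := by
      rw [hu, sum_singleton, sum_union (by rw [← hu]; exact DC_UC i C), sum_singleton,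
        if_pos (not_disj_self (sit_PU_ne H huU)), vp_PU huU]
      congr 1
      rw [h2, card_filter]
      push_cast
      rw [← sum_neg_distrib]
      refine sum_congr rfl fun p hp => ?_
      rw [vp_PD (mem_DC.1 hp).2]
      have h5 : Disjoint (sit i u) (sit i p) ↔ Disjoint (sit i p) (sit i u) := disjoint_comm
      simp only [h5]
      split_ifs <;> norm_num
    rw [h3, h4, hu, card_singleton]
    push_cast
    ring

/-- `F` of a natural part -/
theorem Nat4.F_eq (Q : Nat4 r i K psi C) (hb : 1 ≤ (st i C).card) (hU : (UC i C).card ≤ 1) :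
    I2.al 2 (st i C).card (ZS i C) + (I2.al 2 (st i C).card (ZS i C) ^ 2 -
      2 * I2.be 4 (st i C).card (ZS i C)) =
    2 * (((DC i C).card : ℤ) - (DU i C).card) + (D2 i C).card +
      2 * ((Z4 i C).card - (T4 i C).card : ℤ) := by
  rw [Q.form hb, Q.al2, ← num_form Q.H hU]
  ring

lemma T4_subset (i : ℕ) (C : Finset P) : T4 i C ⊆ Z4 i C := fun _ h => T4_sub h

/-- `F ≥ 0` for a natural part -/
theorem Nat4.F_nonneg (Q : Nat4 r i K psi C) (hb : 1 ≤ (st i C).card) (hU : (UC i C).card ≤ 1) :
    0 ≤ I2.al 2 (st i C).card (ZS i C) + (I2.al 2 (st i C).card (ZS i C) ^ 2 -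
      2 * I2.be 4 (st i C).card (ZS i C)) := by
  rw [Q.F_eq hb hU]
  have h1 := card_le_card (DU_sub i C)
  have h2 := card_le_card (T4_subset i C)
  omega

/-- the cases of equality: no element over three sites with a single cover, every lower pendant meets
the upper one, the lower pendants are disjoint -/
theorem Nat4.F_zero (Q : Nat4 r i K psi C) (hb : 1 ≤ (st i C).card) (hU : (UC i C).card ≤ 1)
    (hF : I2.al 2 (st i C).card (ZS i C) + (I2.al 2 (st i C).card (ZS i C) ^ 2 -
      2 * I2.be 4 (st i C).card (ZS i C)) = 0) :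
    T4 i C = Z4 i C ∧ DU i C = DC i C ∧ D2 i C = ∅ := by
  rw [Q.F_eq hb hU] at hF
  have h1 := card_le_card (DU_sub i C)
  have h2 := card_le_card (T4_subset i C)
  refine ⟨eq_of_subset_of_card_le (T4_subset i C) (by omega),
    eq_of_subset_of_card_le (DU_sub i C) (by omega), card_eq_zero.1 (by omega)⟩

end Pool.Agent.GaussPoset.Win.W4
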